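import Pool.Agent.H293Z.MO.Sub
import Pool.Agent.H437R2.A2
import Pool.Agent.H307R2.LU

set_option autoImplicit false

open Filter Topology Metric

namespace Pool.Agent.H519Z.MO

open Pool.Agent.H392Z.MO Pool.Agent.H293Z.MO Pool.Agent.H437R2

theorem ld : S_LD := by
  intro hNZ σ hσ1 hσ2
  have hz : ∀ s : ℂ, 1 / 2 < s.re → riemannZeta₁ s ≠ 0 := fun s hs h => hNZ s hs (z1_zero_zeta h)
  set r : ℝ := 2 - σ with hr
  set R1 : ℝ := (r + 3 / 2) / 2 with hR1
  have hr0 : 0 < r := by linarith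
  have hr1 : r < R1 := by linarith
  have hR : R1 < 3 / 2 := by linarith
  have hd : 0 < R1 - r := by linarith
  have hR0 : 0 < R1 := by linarith
  refine ⟨8 * R1 / (R1 - r) ^ 2 * 8, by positivity, fun s hs1 hs2 => ⟨hz s (by linarith), ?_⟩⟩
  set t := s.im with ht
  set c : ℂ := 2 + t * Complex.I with hc
  have hl := one_le_ell t
  have hFlow := z1_lower t
  have hFc : riemannZeta₁ c ≠ 0 := by
    intro h
    rw [← hc, h, norm_zero] at hFlow
    norm_num at hFlow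
  have hcn : ‖c‖ ≤ 2 + |t| := by
    rw [hc]
    refine (norm_add_le _ _).trans ?_
    rw [norm_mul, Complex.norm_I, mul_one, Complex.norm_real]
    simp
  have hre : ∀ z : ℂ, 2 - ‖z - c‖ ≤ z.re := by
    intro z
    have h1 := Complex.abs_re_le_norm (z - c)
    have h2 : (z - c).re = z.re - 2 := by simp [hc]
    rw [h2] at h1
    have := (abs_le.1 h1).1
    linarith
  have hM : ∀ z ∈ closedBall c (3 / 2), ‖riemannZeta₁ z‖ ≤ 3 * (|t| + 9 / 2) ^ 2 := by
    intro z hz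
    rw [mem_closedBall, dist_eq_norm] at hz
    refine (z1_norm_le (by linarith [hre z])).trans ?_
    have h3 : ‖z‖ ≤ 3 / 2 + (2 + |t|) := by
      have := norm_add_le (z - c) c
      rw [sub_add_cancel] at this
      linarith
    have h4 : ‖z‖ + 1 ≤ |t| + 9 / 2 := by linarith
    gcongr
  obtain ⟨L, h1, -, -, h4⟩ := landau riemannZeta₁ differentiable_riemannZeta₁ c
    (r := r) (R1 := R1) (R2 := 3 / 2) hr0 hr1 hR hFc hM
  have hL : L = [] := by
    apply List.eq_nil_iff_forall_not_mem.2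
    intro ρ hρ
    obtain ⟨h5, h6⟩ := h1 ρ hρ
    rw [mem_closedBall, dist_eq_norm] at h6
    exact hz ρ (by linarith [hre ρ]) h5
  subst hL
  have hlog : Real.log (3 * (|t| + 9 / 2) ^ 2 / ‖riemannZeta₁ c‖) ≤ 7 * ell t := by
    have ht := abs_nonneg t
    have h5 : 3 * (|t| + 9 / 2) ^ 2 / ‖riemannZeta₁ c‖ ≤ (|t| + 3) ^ 7 := by
      rw [div_le_iff₀ (norm_pos_iff.2 hFc)]
      calc 3 * (|t| + 9 / 2) ^ 2 ≤ (|t| + 3) ^ 7 * (1 / 4) := by
            have e1 : (|t| + 9 / 2) ≤ (|t| + 3) ^ 2 := by nlinarith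
            have e2 : (|t| + 9 / 2) ^ 2 ≤ ((|t| + 3) ^ 2) ^ 2 := by gcongr
            have e3 : (12:ℝ) ≤ (|t| + 3) ^ 3 := by
              have : (3:ℝ) ^ 3 ≤ (|t| + 3) ^ 3 := by gcongr; linarith
              linarith
            have e4 : (|t| + 3) ^ 7 = (|t| + 3) ^ 3 * ((|t| + 3) ^ 2) ^ 2 := by ring
            rw [e4]
            nlinarith [pow_nonneg (show 0 ≤ |t| + 3 by positivity) 4]
        _ ≤ (|t| + 3) ^ 7 * ‖riemannZeta₁ c‖ := by gcongr
    have h6 := Real.log_le_log (by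
      have := norm_pos_iff.2 hFc
      positivity) h5
    rw [Real.log_pow] at h6
    exact_mod_cast h6
  have hsc : s ∈ closedBall c r := by
    rw [mem_closedBall, dist_eq_norm]
    have e : s - c = ((s.re - 2 : ℝ) : ℂ) := by
      apply Complex.ext <;> simp [hc, ht]
    rw [e, Complex.norm_real, Real.norm_eq_abs, abs_le]
    constructor <;> linarith
  have h7 := h4 s hsc (hz s (by linarith))
  simp only [List.map_nil, List.sum_nil, sub_zero, List.length_nil, Nat.cast_zero, zero_mul,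
    add_zero] at h7
  refine h7.trans ?_
  have h8 : Real.log (3 * (|t| + 9 / 2) ^ 2 / ‖riemannZeta₁ c‖) + 1 ≤ 8 * ell t := by linarith
  calc _ ≤ 8 * R1 / (R1 - r) ^ 2 * (8 * ell t) := by gcongr
    _ = _ := by unfold ell; ring

/-- the sign `(-1)^(n-1)` -/
def sg (n : ℕ) : ℂ := if Even n then -1 else 1

lemma sg_norm (n : ℕ) : ‖sg n‖ = 1 := by
  unfold sg; split_ifs <;> simp

lemma sg_mul {m n : ℕ} (h : m.Coprime n) : sg (m * n) = sg m * sg n := by
  unfold sg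
  by_cases hm : Even m <;> by_cases hn : Even n
  · exfalso
    have := Nat.dvd_gcd (even_iff_two_dvd.1 hm) (even_iff_two_dvd.1 hn)
    rw [h] at this
    omega
  all_goals simp [Nat.even_mul, hm, hn]

lemma alt_even (α : ℂ) (M : ℕ) :
    ∑ n ∈ Finset.Icc 1 (2 * M), sg n * (n : ℂ) ^ (-α) =
      ∑ n ∈ Finset.Icc 1 (2 * M), (n : ℂ) ^ (-α) -
        2 * (2 : ℂ) ^ (-α) * ∑ n ∈ Finset.Icc 1 M, (n : ℂ) ^ (-α) := by
  induction M with
  | zero => simp
  | succ M ih =>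
    have e : 2 * (M + 1) = 2 * M + 1 + 1 := by ring
    rw [e, Finset.sum_Icc_succ_top (by omega), Finset.sum_Icc_succ_top (by omega), ih,
      Finset.sum_Icc_succ_top (by omega), Finset.sum_Icc_succ_top (by omega),
      Finset.sum_Icc_succ_top (by omega)]
    have h1 : sg (2 * M + 1) = 1 := by
      unfold sg; rw [if_neg (by simp)]
    have h2 : sg (2 * M + 1 + 1) = -1 := by
      unfold sg; rw [if_pos ⟨M + 1, by ring⟩]
    have h3 : ((2 * M + 1 + 1 : ℕ) : ℂ) ^ (-α) = (2 : ℂ) ^ (-α) * ((M + 1 : ℕ) : ℂ) ^ (-α) := by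
      rw [← e, Nat.cast_mul, Complex.natCast_mul_natCast_cpow]
      norm_num
    rw [h1, h2, h3]
    ring

lemma alt_bound (α : ℂ) (h0 : riemannZeta α = 0) (ha : 0 < α.re) (h1 : α ≠ 1) (N : ℕ)
    (hN : 2 ≤ N) : ‖∑ n ∈ Finset.Icc 1 N, sg n * (n : ℂ) ^ (-α)‖ ≤
      (3 * ‖α‖ / α.re + 1) * ((N / 2 : ℕ) : ℝ) ^ (-α.re) := by
  set M := N / 2 with hM
  have hM1 : 1 ≤ M := by omega
  have hM0 : (0 : ℝ) < M := by exact_mod_cast hM1
  have hZ : ∀ K : ℕ, 1 ≤ K → ∑ n ∈ Finset.Icc 1 K, (n : ℂ) ^ (-α) =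
      -((K : ℂ) ^ (1 - α) / (α - 1)) - α * H307R2.TM K H307R2.Ez α := by
    intro K hK
    have := H307R2.zeta_eq hK ha h1
    rw [h0] at this
    linear_combination -this
  have hT : ∀ K : ℕ, M ≤ K → ‖H307R2.TM K H307R2.Ez α‖ ≤ (M : ℝ) ^ (-α.re) / α.re := by
    intro K hK
    refine (H307R2.TM_norm_le (by omega) H307R2.Ez_norm_le ha).trans ?_
    rw [one_mul]
    have : (K : ℝ) ^ (-α.re) ≤ (M : ℝ) ^ (-α.re) :=
      Real.rpow_le_rpow_of_nonpos hM0 (by exact_mod_cast hK) (by linarith)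
    gcongr
  have h2 : ‖(2 : ℂ) ^ (-α)‖ ≤ 1 := by
    have : ‖((2 : ℕ) : ℂ) ^ (-α)‖ = ((2 : ℕ) : ℝ) ^ (-α).re :=
      Complex.norm_natCast_cpow_of_pos (by norm_num) _
    rw [Nat.cast_ofNat] at this
    rw [this]
    exact Real.rpow_le_one_of_one_le_of_nonpos (by norm_num) (by simp; linarith)
  have hev : ‖∑ n ∈ Finset.Icc 1 (2 * M), sg n * (n : ℂ) ^ (-α)‖ ≤
      3 * ‖α‖ / α.re * (M : ℝ) ^ (-α.re) := by
    rw [alt_even, hZ (2 * M) (by omega), hZ M hM1]
    have e1 : ((2 * M : ℕ) : ℂ) ^ (1 - α) = 2 * (2 : ℂ) ^ (-α) * (M : ℂ) ^ (1 - α) := by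
      rw [Nat.cast_mul, Complex.natCast_mul_natCast_cpow, sub_eq_add_neg,
        Complex.cpow_add _ _ (by norm_num : ((2 : ℕ) : ℂ) ≠ 0), Complex.cpow_one]
      norm_num
    have e2 : -(((2 * M : ℕ) : ℂ) ^ (1 - α) / (α - 1)) - α * H307R2.TM (2 * M) H307R2.Ez α -
        2 * (2 : ℂ) ^ (-α) * (-((M : ℂ) ^ (1 - α) / (α - 1)) - α * H307R2.TM M H307R2.Ez α) =
        α * (2 * (2 : ℂ) ^ (-α) * H307R2.TM M H307R2.Ez α - H307R2.TM (2 * M) H307R2.Ez α) := by
      rw [e1]; ring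
    rw [e2, norm_mul]
    have a1 := hT M le_rfl
    have a2 := hT (2 * M) (by omega)
    have a3 : ‖2 * (2 : ℂ) ^ (-α) * H307R2.TM M H307R2.Ez α‖ ≤
        2 * 1 * ((M : ℝ) ^ (-α.re) / α.re) := by
      rw [norm_mul, norm_mul, Complex.norm_ofNat]
      gcongr
    calc _ ≤ ‖α‖ * (3 * ((M : ℝ) ^ (-α.re) / α.re)) := by
          gcongr
          refine (norm_sub_le _ _).trans ?_
          linarith
      _ = _ := by ring
  have hp : 0 ≤ (M : ℝ) ^ (-α.re) := by positivity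
  rcases Nat.even_or_odd' N with ⟨k, hk | hk⟩
  · have : N = 2 * M := by omega
    rw [this]
    linarith
  · have : N = 2 * M + 1 := by omega
    rw [this, Finset.sum_Icc_succ_top (by omega)]
    refine (norm_add_le _ _).trans ?_
    have a4 : ‖sg (2 * M + 1) * ((2 * M + 1 : ℕ) : ℂ) ^ (-α)‖ ≤ (M : ℝ) ^ (-α.re) := by
      rw [norm_mul, sg_norm, one_mul, Complex.norm_natCast_cpow_of_pos (by omega), Complex.neg_re]
      exact Real.rpow_le_rpow_of_nonpos hM0 (by push_cast; linarith) (by linarith)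
    linarith

theorem i5 : S_I5 := by
  intro h
  unfold NoZero at h
  push Not at h
  obtain ⟨α, ha, h0⟩ := h
  have ha1 : α.re < 1 := by
    by_contra h
    exact riemannZeta_ne_zero_of_one_le_re (not_lt.1 h) h0
  have ha0 : 0 < α.re := by linarith
  have hα0 : -α ≠ 0 := by
    intro h
    have : α = 0 := neg_eq_zero.1 h
    rw [this] at ha0
    simp at ha0
  have hα1 : α ≠ 1 := by
    intro h
    rw [h] at ha1
    simp at ha1
  let f : ArithmeticFunction ℂ := ⟨fun n => sg n * (n : ℂ) ^ (-α), by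
    simp [Complex.zero_cpow hα0]⟩
  have hf : ∀ n, f n = sg n * (n : ℂ) ^ (-α) := fun n => rfl
  refine ⟨f, ⟨?_, ?_⟩, ?_, ?_⟩
  · rw [hf]; simp [sg]
  · intro m n hmn
    rw [hf, hf, hf, sg_mul hmn, Nat.cast_mul, Complex.natCast_mul_natCast_cpow]
    ring
  · intro p hp
    set x : ℂ := (p : ℂ) ^ (-α) with hx
    have hxn : ‖x‖ = (p : ℝ) ^ (-α.re) := by
      rw [hx, Complex.norm_natCast_cpow_of_pos hp.pos, Complex.neg_re]
    have hp1 : (1 : ℝ) < p := by exact_mod_cast hp.one_lt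
    have hx1 : ‖x‖ < 1 := by
      rw [hxn]; exact Real.rpow_lt_one_of_one_lt_of_neg hp1 (by linarith)
    have hx2 : 1 - x ≠ 0 := by
      intro h
      have : x = 1 := by linear_combination -h
      rw [this] at hx1
      simp at hx1
    have hpow : ∀ k : ℕ, ((p ^ k : ℕ) : ℂ) ^ (-α) = x ^ k := by
      intro k
      induction k with
      | zero => simp
      | succ k ih => rw [pow_succ, Nat.cast_mul, Complex.natCast_mul_natCast_cpow, ih, pow_succ]
    have hg := hasSum_geometric_of_norm_lt_one hx1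
    rcases hp.eq_two_or_odd' with h2 | hodd
    · have hs : HasSum (fun k : ℕ => f (p ^ k)) (-(1 - x)⁻¹ + 2) := by
        have h3 : HasSum (fun k : ℕ => if k = 0 then (2 : ℂ) else 0) 2 := hasSum_ite_eq 0 2
        have e : (fun k : ℕ => f (p ^ k)) = fun k => -x ^ k + if k = 0 then (2 : ℂ) else 0 := by
          funext k
          rw [hf, hpow]
          unfold sg
          by_cases hk : k = 0
          · subst hk; simp; norm_num
          · rw [if_pos (by rw [h2]; exact (Nat.even_pow' hk).2 even_two), if_neg hk]; ring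
        rw [e]
        exact hg.neg.add h3
      refine ⟨_, ?_, hs.tendsto_sum_nat⟩
      intro h
      have h4 : x = 1 / 2 := by
        field_simp at h
        linear_combination -h / 2
      have h5 : (p : ℝ) ^ (-(1 : ℝ)) < (p : ℝ) ^ (-α.re) :=
        Real.rpow_lt_rpow_of_exponent_lt hp1 (by linarith)
      rw [← hxn, h4, h2, Real.rpow_neg_one] at h5
      norm_num at h5
    · have hs : HasSum (fun k : ℕ => f (p ^ k)) (1 - x)⁻¹ := by
        have e : (fun k : ℕ => f (p ^ k)) = fun k => x ^ k := by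
          funext k
          rw [hf, hpow]
          unfold sg
          rw [if_neg (Nat.not_even_iff_odd.2 hodd.pow), one_mul]
        rw [e]
        exact hg
      exact ⟨_, inv_ne_zero hx2, hs.tendsto_sum_nat⟩
  · set K := 3 * ‖α‖ / α.re + 1 with hK
    have hK0 : 0 ≤ K := by positivity
    have hlim : Tendsto (fun x : ℝ => 2 * K * (x / 4) ^ (-(α.re - 1 / 2))) atTop (𝓝 (2 * K * 0)) :=
      ((tendsto_rpow_neg_atTop (by linarith)).comp
        (tendsto_id.atTop_div_const (by norm_num))).const_mul _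
    rw [mul_zero] at hlim
    refine squeeze_zero' (Eventually.of_forall fun x => by positivity) ?_ hlim
    filter_upwards [eventually_ge_atTop (2 : ℝ)] with x hx
    have hN : 2 ≤ ⌊x⌋₊ := Nat.le_floor (by exact_mod_cast hx)
    have h1 := alt_bound α h0 ha0 hα1 _ hN
    have h2 : x / 4 ≤ ((⌊x⌋₊ / 2 : ℕ) : ℝ) := by
      have a1 := Nat.lt_floor_add_one x
      have a2 : ⌊x⌋₊ + 1 ≤ 4 * (⌊x⌋₊ / 2) := by omega
      have a3 : ((⌊x⌋₊ : ℝ) + 1) ≤ 4 * ((⌊x⌋₊ / 2 : ℕ) : ℝ) := by exact_mod_cast a2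
      linarith
    have hx4 : 0 < x / 4 := by linarith
    have h3 : ((⌊x⌋₊ / 2 : ℕ) : ℝ) ^ (-α.re) ≤ (x / 4) ^ (-α.re) :=
      Real.rpow_le_rpow_of_nonpos hx4 h2 (by linarith)
    have h4 : Real.sqrt x = 2 * (x / 4) ^ (1 / 2 : ℝ) := by
      rw [← Real.sqrt_eq_rpow, Real.sqrt_div' _ (by norm_num : (0 : ℝ) ≤ 4),
        show (4 : ℝ) = 2 ^ 2 by norm_num, Real.sqrt_sq (by norm_num)]
      ring
    have h5 : (x / 4) ^ (-(α.re - 1 / 2)) = (x / 4) ^ (1 / 2 : ℝ) * (x / 4) ^ (-α.re) := by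
      rw [← Real.rpow_add hx4]; congr 1; ring
    simp only [hf]
    rw [h4, h5]
    calc 2 * (x / 4) ^ (1 / 2 : ℝ) * ‖∑ n ∈ Finset.Icc 1 ⌊x⌋₊, sg n * (n : ℂ) ^ (-α)‖
        ≤ 2 * (x / 4) ^ (1 / 2 : ℝ) * (K * (x / 4) ^ (-α.re)) := by
          gcongr
          exact h1.trans (by gcongr)
      _ = _ := by ring

end Pool.Agent.H519Z.MO
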